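import Mathlib.LinearAlgebra.BilinearForm.TensorProduct
import Mathlib.RingTheory.Polynomial.Basic
import Mathlib.RingTheory.Bialgebra.Basic
import Mathlib.RingTheory.TensorProduct.Maps
import Mathlib.Algebra.DualNumber
import Mathlib.Algebra.TrivSqZeroExt.Basic

/-!
# A deformation of a unital algebra that does not come from a universal deformation formula

Let `k` be a field.  The unital algebra `A = k ⊕ M` with `M = k[X]` and `M² = 0` has the deformation
`a * b = a b + ε f(a, b)` over `R = k[ε]/(ε²)`, where `f(1, ·) = f(·, 1) = 0` and `f(p, q)` is the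
product of the polynomials `p, q`, viewed as an element of `M`.  It is not equivalent to a
deformation coming from a universal deformation formula: the latter are given by *finite* sums
`∑ (b_i a) (c_i b)`, and a product of two elements of `A` has an `M`-component only through the
scalar parts of the factors, which are linear functionals; finitely many of them vanish at some
nonzero `p ∈ M`, but `f(p, p) = p² ≠ 0`.
-/

open TensorProduct

namespace Pool.Agent.Results.MP_8ccf7f_al.NotFromUDF

universe u v w x

section defs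

variable (k : Type u) [Field k] (R : Type v) [CommRing R] [Algebra k R] (aug : R →ₐ[k] k)
  (A : Type w) [Ring A] [Algebra k A]

/-- Reduction modulo the kernel of the augmentation `R → k`, as a map `R ⊗ A → A`. -/
noncomputable def reduce : R ⊗[k] A →ₗ[k] A :=
  (TensorProduct.lid k A).toLinearMap ∘ₗ LinearMap.rTensor A aug.toLinearMap

/-- An `R`-deformation of the unital algebra `A`: an `R`-bilinear, associative, unital product on
`R ⊗ A` which reduces to the product of `A`. -/
structure Deformation where
  /-- the product -/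
  mul : (R ⊗[k] A) →ₗ[R] (R ⊗[k] A) →ₗ[R] (R ⊗[k] A)
  assoc : ∀ x y z, mul (mul x y) z = mul x (mul y z)
  one_mul : ∀ x, mul (1 ⊗ₜ 1) x = x
  mul_one : ∀ x, mul x (1 ⊗ₜ 1) = x
  red : ∀ x y, reduce k R aug A (mul x y) = reduce k R aug A x * reduce k R aug A y

variable {k R aug A}

/-- Two deformations are equivalent: an `R`-linear automorphism of `R ⊗ A` that is the identity
modulo the maximal ideal carries one product to the other. -/
def Equivalent (D D' : Deformation k R aug A) : Prop :=
  ∃ φ : (R ⊗[k] A) ≃ₗ[R] (R ⊗[k] A), (∀ x, reduce k R aug A (φ x) = reduce k R aug A x) ∧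
    ∀ x y, φ (D.mul x y) = D'.mul (φ x) (φ y)

variable {B : Type x} [Ring B] [Bialgebra k B]

/-- `b ⊗ c ↦ (b a) (c a')` for `a, a' ∈ A` -/
noncomputable def act2 (ρ : B →ₐ[k] Module.End k A) (a a' : A) : B ⊗[k] B →ₗ[k] A :=
  TensorProduct.lift (LinearMap.mk₂ k (fun b c => ρ b a * ρ c a')
    (by intro b b' c; simp [add_mul]) (by intro r b c; simp)
    (by intro b c c'; simp [mul_add]) (by intro r b c; simp))

@[simp] theorem act2_tmul (ρ : B →ₐ[k] Module.End k A) (a a' : A) (b c : B) :
    act2 ρ a a' (b ⊗ₜ c) = ρ b a * ρ c a' := by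
  simp [act2]

/-- `ρ` makes `A` into a `B`-module algebra. -/
structure IsModuleAlgebra (ρ : B →ₐ[k] Module.End k A) : Prop where
  one : ∀ b, ρ b 1 = algebraMap k A (Coalgebra.counit b)
  mul : ∀ b a a', ρ b (a * a') = act2 ρ a a' (Coalgebra.comul b)

variable (R aug) in
/-- `F` is a universal deformation formula over `R` based on `B`: the twisting equation
`[(Δ ⊗ id) F] (F ⊗ 1) = [(id ⊗ Δ) F] (1 ⊗ F)`, the counit equations and `F ≡ 1 ⊗ 1`. -/
structure IsUDF (F : R ⊗[k] (B ⊗[k] B)) : Prop where
  twist :
    Algebra.TensorProduct.map (AlgHom.id R R) ((Algebra.TensorProduct.assoc k k k B B B).toAlgHom.comp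
        (Algebra.TensorProduct.map (Bialgebra.comulAlgHom k B) (AlgHom.id k B))) F *
      Algebra.TensorProduct.map (AlgHom.id R R) ((Algebra.TensorProduct.assoc k k k B B B).toAlgHom.comp
        (Algebra.TensorProduct.includeLeft : B ⊗[k] B →ₐ[k] (B ⊗[k] B) ⊗[k] B)) F =
    Algebra.TensorProduct.map (AlgHom.id R R)
        (Algebra.TensorProduct.map (AlgHom.id k B) (Bialgebra.comulAlgHom k B)) F *
      Algebra.TensorProduct.map (AlgHom.id R R)
        (Algebra.TensorProduct.includeRight : B ⊗[k] B →ₐ[k] B ⊗[k] (B ⊗[k] B)) F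
  counit_left :
    Algebra.TensorProduct.map (AlgHom.id R R) ((Algebra.TensorProduct.lid k B).toAlgHom.comp
      (Algebra.TensorProduct.map (Bialgebra.counitAlgHom k B) (AlgHom.id k B))) F = 1
  counit_right :
    Algebra.TensorProduct.map (AlgHom.id R R) ((Algebra.TensorProduct.rid k k B).toAlgHom.comp
      (Algebra.TensorProduct.map (AlgHom.id k B) (Bialgebra.counitAlgHom k B))) F = 1
  red : reduce k R aug (B ⊗[k] B) F = 1

/-- The deformation `D` comes from a universal deformation formula: for some bialgebra `B`, some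
`B`-module algebra structure on `A` and some UDF `F`, one has `a * a' = μ (F (a ⊗ a'))` for all
`a, a' ∈ A` (this determines the `R`-bilinear product). -/
def ComesFromUDF (D : Deformation k R aug A) : Prop :=
  ∃ (B : Type x) (_ : Ring B) (_ : Bialgebra k B) (ρ : B →ₐ[k] Module.End k A)
    (F : R ⊗[k] (B ⊗[k] B)), IsModuleAlgebra ρ ∧ IsUDF R aug F ∧
      ∀ a a' : A, D.mul (1 ⊗ₜ a) (1 ⊗ₜ a') = LinearMap.lTensor R (act2 ρ a a') F

end defs

section dual

variable (k : Type u) [Field k] (A : Type w) [AddCommGroup A] [Module k A]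

/-- the coefficient of `ε` -/
noncomputable def coef : DualNumber k ⊗[k] A →ₗ[k] A :=
  (TensorProduct.lid k A).toLinearMap ∘ₗ LinearMap.rTensor A (TrivSqZeroExt.sndHom k k)

/-- the constant coefficient -/
noncomputable def coef0 : DualNumber k ⊗[k] A →ₗ[k] A :=
  (TensorProduct.lid k A).toLinearMap ∘ₗ
    LinearMap.rTensor A (TrivSqZeroExt.fstHom k k k).toLinearMap

variable {k A}

@[simp] theorem coef_tmul (r : DualNumber k) (a : A) : coef k A (r ⊗ₜ a) = r.snd • a := by
  simp [coef]

@[simp] theorem coef0_tmul (r : DualNumber k) (a : A) : coef0 k A (r ⊗ₜ a) = r.fst • a := by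
  simp [coef0]

theorem decomp (y : DualNumber k ⊗[k] A) :
    y = 1 ⊗ₜ coef0 k A y + DualNumber.eps ⊗ₜ coef k A y := by
  induction y using TensorProduct.induction_on with
  | zero => simp
  | tmul r a =>
    rw [coef_tmul, coef0_tmul, ← TensorProduct.smul_tmul, ← TensorProduct.smul_tmul,
      ← TensorProduct.add_tmul]
    congr 1
    ext <;> simp
  | add p q hp hq =>
    rw [map_add, map_add, TensorProduct.tmul_add, TensorProduct.tmul_add]
    nth_rewrite 1 [hp]
    nth_rewrite 1 [hq]
    abel

theorem coef_eps_smul (y : DualNumber k ⊗[k] A) :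
    coef k A ((DualNumber.eps : DualNumber k) • y) = coef0 k A y := by
  induction y using TensorProduct.induction_on with
  | zero => simp
  | tmul r a => simp [TensorProduct.smul_tmul']
  | add p q hp hq => rw [smul_add, map_add, hp, hq, map_add]

theorem eps_eps_smul (y : DualNumber k ⊗[k] A) :
    (DualNumber.eps : DualNumber k) • ((DualNumber.eps : DualNumber k) • y) = 0 := by
  rw [smul_smul, DualNumber.eps_mul_eps, zero_smul]

end dual

/-! ### The example -/

section ex

variable (k : Type u) [Field k]

/-- the unital algebra `k ⊕ k[X]` with `k[X]² = 0` -/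
abbrev Alg : Type u := TrivSqZeroExt k (Polynomial k)

/-- the cocycle `f(α + p, β + q) = p q ∈ M` -/
noncomputable def coc : Alg k →ₗ[k] Alg k →ₗ[k] Alg k :=
  LinearMap.mk₂ k (fun a b => TrivSqZeroExt.inr (a.snd * b.snd))
    (by intro a b c; ext <;> simp [add_mul]) (by intro r a b; ext <;> simp)
    (by intro a b c; ext <;> simp [mul_add]) (by intro r a b; ext <;> simp)

theorem coc_apply (a b : Alg k) : coc k a b = TrivSqZeroExt.inr (a.snd * b.snd) := rfl

theorem coc_cocycle (a b c : Alg k) :
    coc k (a * b) c + coc k a b * c = coc k a (b * c) + a * coc k b c := by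
  simp only [coc_apply]
  ext
  · simp
  · simp [add_mul, mul_add]
    ring

/-- the deformed product -/
noncomputable def dmul : (DualNumber k ⊗[k] Alg k) →ₗ[DualNumber k]
    (DualNumber k ⊗[k] Alg k) →ₗ[DualNumber k] (DualNumber k ⊗[k] Alg k) :=
  LinearMap.BilinMap.baseChange (DualNumber k) (LinearMap.mul k (Alg k)) +
    (DualNumber.eps : DualNumber k) • LinearMap.BilinMap.baseChange (DualNumber k) (coc k)

theorem dmul_tmul (r s : DualNumber k) (a b : Alg k) :
    dmul k (r ⊗ₜ a) (s ⊗ₜ b) = (r * s) ⊗ₜ (a * b) +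
      (DualNumber.eps : DualNumber k) • ((r * s) ⊗ₜ[k] coc k a b) := by
  simp only [dmul, LinearMap.add_apply, LinearMap.smul_apply]
  rw [LinearMap.BilinMap.baseChange_tmul, LinearMap.BilinMap.baseChange_tmul]
  rfl

theorem dmul_assoc (p q r : DualNumber k ⊗[k] Alg k) :
    dmul k (dmul k p q) r = dmul k p (dmul k q r) := by
  induction p using TensorProduct.induction_on with
  | zero => simp
  | add p p' hp hp' => simp only [map_add, LinearMap.add_apply, hp, hp']
  | tmul a x =>
    induction q using TensorProduct.induction_on with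
    | zero => simp
    | add q q' hq hq' => simp only [map_add, LinearMap.add_apply, hq, hq']
    | tmul b y =>
      induction r using TensorProduct.induction_on with
      | zero => simp
      | add r r' hr hr' => simp only [map_add, hr, hr']
      | tmul c z =>
        have key := congrArg (fun w => (DualNumber.eps : DualNumber k) • ((a * b * c) ⊗ₜ[k] w))
          (coc_cocycle k x y z)
        simp only [TensorProduct.tmul_add, smul_add] at key
        simp only [dmul_tmul, map_add, LinearMap.add_apply, map_smul, LinearMap.smul_apply,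
          smul_add, eps_eps_smul, add_zero, mul_assoc]
        rw [mul_assoc] at key
        rw [add_assoc, key]
        abel

theorem dmul_one_left (p : DualNumber k ⊗[k] Alg k) : dmul k (1 ⊗ₜ 1) p = p := by
  induction p using TensorProduct.induction_on with
  | zero => simp
  | add p p' hp hp' => rw [map_add, hp, hp']
  | tmul a x => simp [dmul_tmul, coc_apply]

theorem dmul_one_right (p : DualNumber k ⊗[k] Alg k) : dmul k p (1 ⊗ₜ 1) = p := by
  induction p using TensorProduct.induction_on with
  | zero => simp
  | add p p' hp hp' => rw [map_add, LinearMap.add_apply, hp, hp']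
  | tmul a x => simp [dmul_tmul, coc_apply]

/-- the augmentation `k[ε] → k` -/
abbrev augD : DualNumber k →ₐ[k] k := TrivSqZeroExt.fstHom k k k

theorem reduce_eq (A : Type w) [Ring A] [Algebra k A] (p : DualNumber k ⊗[k] A) :
    reduce k (DualNumber k) (augD k) A p = coef0 k A p := rfl

theorem coef0_eps_smul {A : Type w} [Ring A] [Algebra k A] (p : DualNumber k ⊗[k] A) :
    coef0 k A ((DualNumber.eps : DualNumber k) • p) = 0 := by
  induction p using TensorProduct.induction_on with
  | zero => simp
  | add p q hp hq => rw [smul_add, map_add, hp, hq, add_zero]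
  | tmul a x => simp [TensorProduct.smul_tmul']

/-- the deformation `a * b = a b + ε f(a, b)` -/
noncomputable def defo : Deformation k (DualNumber k) (augD k) (Alg k) where
  mul := dmul k
  assoc := dmul_assoc k
  one_mul := dmul_one_left k
  mul_one := dmul_one_right k
  red := by
    intro p q
    rw [reduce_eq, reduce_eq, reduce_eq]
    induction p using TensorProduct.induction_on with
    | zero => simp
    | add p p' hp hp' => rw [map_add, LinearMap.add_apply, map_add, map_add, add_mul, hp, hp']
    | tmul a x =>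
      induction q using TensorProduct.induction_on with
      | zero => simp
      | add q q' hq hq' => rw [map_add, map_add, map_add, mul_add, hq, hq']
      | tmul b y =>
        rw [dmul_tmul, map_add, coef0_eps_smul, add_zero, coef0_tmul, coef0_tmul, coef0_tmul,
          TrivSqZeroExt.fst_mul, smul_mul_smul_comm]

/-- finitely many linear functionals on `k[X]` have a common nonzero zero -/
theorem exists_common_zero (L : List (Polynomial k →ₗ[k] k)) :
    ∃ v : Polynomial k, v ≠ 0 ∧ ∀ l ∈ L, l v = 0 := by
  by_contra hc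
  push Not at hc
  let Φ : Polynomial k →ₗ[k] (Fin L.length → k) := LinearMap.pi fun i => L.get i
  have hinj : Function.Injective Φ := by
    rw [← LinearMap.ker_eq_bot, LinearMap.ker_eq_bot']
    intro v hv
    by_contra hv0
    obtain ⟨l, hl, hlv⟩ := hc v hv0
    obtain ⟨i, rfl⟩ := List.get_of_mem hl
    exact hlv (congrFun hv i)
  exact Polynomial.not_finite (R := k) (Module.Finite.of_injective Φ hinj)

/-- the finiteness of elements of `B ⊗ B`: there are finitely many functionals such that
`∑ (b_i v)(c_i v)` has no `M`-component when they vanish at `v ∈ M` -/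
theorem finite_functionals {B : Type x} [Ring B] [Bialgebra k B]
    (ρ : B →ₐ[k] Module.End k (Alg k)) (G : B ⊗[k] B) :
    ∃ L : List (Polynomial k →ₗ[k] k), ∀ v : Polynomial k, (∀ l ∈ L, l v = 0) →
      (act2 ρ (TrivSqZeroExt.inr v) (TrivSqZeroExt.inr v) G).snd = 0 := by
  induction G using TensorProduct.induction_on with
  | zero => exact ⟨[], fun v _ => by simp⟩
  | add G H hG hH =>
    obtain ⟨L, hL⟩ := hG
    obtain ⟨L', hL'⟩ := hH
    refine ⟨L ++ L', fun v hv => ?_⟩
    rw [map_add, TrivSqZeroExt.snd_add, hL v (fun l hl => hv l (by simp [hl])),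
      hL' v (fun l hl => hv l (by simp [hl])), add_zero]
  | tmul b c =>
    refine ⟨[(TrivSqZeroExt.fstHom k k (Polynomial k)).toLinearMap ∘ₗ ρ b ∘ₗ
        TrivSqZeroExt.inrHom k (Polynomial k),
      (TrivSqZeroExt.fstHom k k (Polynomial k)).toLinearMap ∘ₗ ρ c ∘ₗ
        TrivSqZeroExt.inrHom k (Polynomial k)], fun v hv => ?_⟩
    have h1 : (ρ b (TrivSqZeroExt.inr v)).fst = 0 := hv _ List.mem_cons_self
    have h2 : (ρ c (TrivSqZeroExt.inr v)).fst = 0 :=
      hv _ (List.mem_cons_of_mem _ List.mem_cons_self)
    rw [act2_tmul, TrivSqZeroExt.snd_mul, h1, h2]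
    simp

end ex

/-- **Main result.** For every field `k` there are a unital associative `k`-algebra `A` and a
deformation `D` of `A` over `k[ε]/(ε²)` which is not equivalent to any deformation that comes from a
universal deformation formula, for any bialgebra `B`, any `B`-module algebra structure on `A` and
any UDF `F`. -/
theorem result (k : Type u) [Field k] :
    ∃ (A : Type u) (_ : Ring A) (_ : Algebra k A)
      (D : Deformation k (DualNumber k) (TrivSqZeroExt.fstHom k k k) A),
      ¬ ∃ D' : Deformation k (DualNumber k) (TrivSqZeroExt.fstHom k k k) A,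
        Equivalent D D' ∧ ComesFromUDF.{u, u, u, x} D' := by
  refine ⟨Alg k, inferInstance, inferInstance, defo k, ?_⟩
  rintro ⟨D', ⟨φ, hφ, hmul⟩, B, _, _, ρ, F, hρ, hF, hD'⟩
  -- the first order part of the equivalence
  let h : Alg k →ₗ[k] Alg k := coef k (Alg k) ∘ₗ (φ.toLinearMap.restrictScalars k) ∘ₗ
    (TensorProduct.mk k (DualNumber k) (Alg k) 1)
  have hφ1 : ∀ a : Alg k, φ (1 ⊗ₜ a) = 1 ⊗ₜ a + DualNumber.eps ⊗ₜ h a := by
    intro a
    have e1 := decomp (φ (1 ⊗ₜ a))
    have e2 : coef0 k (Alg k) (φ (1 ⊗ₜ a)) = a := by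
      rw [← reduce_eq, hφ, reduce_eq, coef0_tmul]; simp
    rw [e2] at e1
    exact e1
  obtain ⟨L, hL⟩ := finite_functionals k ρ (coef k (B ⊗[k] B) F)
  obtain ⟨v, hv0, hv⟩ := exists_common_zero k
    (((TrivSqZeroExt.fstHom k k (Polynomial k)).toLinearMap ∘ₗ h ∘ₗ
      TrivSqZeroExt.inrHom k (Polynomial k)) :: L)
  have hv1 : (h (TrivSqZeroExt.inr v)).fst = 0 := hv _ List.mem_cons_self
  have hv2 := hL v (fun l hl => hv l (by simp [hl]))
  set m : Alg k := TrivSqZeroExt.inr v with hm
  have key := congrArg (coef k (Alg k)) (hmul (1 ⊗ₜ m) (1 ⊗ₜ m))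
  -- left-hand side
  have e1 : (defo k).mul (1 ⊗ₜ m) (1 ⊗ₜ m) =
      (DualNumber.eps : DualNumber k) • (1 ⊗ₜ[k] (TrivSqZeroExt.inr (v * v) : Alg k)) := by
    change dmul k _ _ = _
    rw [dmul_tmul, coc_apply, hm, TrivSqZeroExt.inr_mul_inr, TensorProduct.tmul_zero, zero_add,
      mul_one, TrivSqZeroExt.snd_inr]
  have e2 : coef k (Alg k) (φ ((defo k).mul (1 ⊗ₜ m) (1 ⊗ₜ m))) = TrivSqZeroExt.inr (v * v) := by
    rw [e1, map_smul, coef_eps_smul, hφ1, map_add, coef0_tmul, coef0_tmul]
    simp
  -- right-hand side
  have e3 : ∀ a : Alg k, (DualNumber.eps : DualNumber k) ⊗ₜ[k] a =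
      (DualNumber.eps : DualNumber k) • ((1 : DualNumber k) ⊗ₜ[k] a) := by
    intro a
    rw [TensorProduct.smul_tmul', smul_eq_mul, mul_one]
  have e4 : coef k (Alg k) (D'.mul (φ (1 ⊗ₜ m)) (φ (1 ⊗ₜ m))) =
      coef k (Alg k) (D'.mul (1 ⊗ₜ m) (1 ⊗ₜ m)) + (h m * m + m * h m) := by
    rw [hφ1, e3]
    simp only [map_add, LinearMap.add_apply, map_smul, LinearMap.smul_apply, smul_add,
      eps_eps_smul, add_zero, coef_eps_smul]
    rw [← reduce_eq, ← reduce_eq, D'.red, D'.red]
    simp only [reduce_eq, coef0_tmul, TrivSqZeroExt.fst_one, one_smul]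
    abel
  have e5 : ∀ G : DualNumber k ⊗[k] (B ⊗[k] B),
      coef k (Alg k) (LinearMap.lTensor (DualNumber k) (act2 ρ m m) G) =
        act2 ρ m m (coef k (B ⊗[k] B) G) := by
    intro G
    induction G using TensorProduct.induction_on with
    | zero => simp
    | add G H hG hH => simp only [map_add, hG, hH]
    | tmul r g => simp
  rw [e2, e4, hD', e5] at key
  have key2 := congrArg TrivSqZeroExt.snd key
  rw [TrivSqZeroExt.snd_inr, TrivSqZeroExt.snd_add, hv2, zero_add, TrivSqZeroExt.snd_add,
    TrivSqZeroExt.snd_mul, TrivSqZeroExt.snd_mul, hv1] at key2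
  simp [hm] at key2
  exact hv0 key2

end Pool.Agent.Results.MP_8ccf7f_al.NotFromUDF
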